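import Pool.Agent.V5helper28.KP.Stm3

/-!
# Project KP (helper28): job FUB2, Fubini for the codes
-/

set_option autoImplicit false

namespace Pool.Agent.V5helper15.KP

open MeasureTheory Set
open Pool.Agent.V5helper28.SSK Pool.Agent.V5helper28.KP
open scoped ENNReal

theorem t_FUB2 : S_FUB2 := by
  intro d m π P _ K hπ hK hpos hcon
  have hptc : Continuous fun q : (E d × E d) × ℝ => pt q.2 (q.1.2 + q.2 • q.1.1) := by
    unfold pt
    refine (PiLp.continuous_toLp 2 _).comp (continuous_pi fun i => ?_)
    refine Fin.cases ?_ (fun j => ?_) i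
    · simp only [Fin.cons_zero]
      exact continuous_snd
    · simp only [Fin.cons_succ]
      have h : Continuous fun q : (E d × E d) × ℝ => q.1.2 + q.2 • q.1.1 := by fun_prop
      exact (continuous_apply j).comp ((PiLp.continuous_ofLp 2 _).comp h)
  have hc : Continuous fun q : (ℕ → Fin m) × ℝ => pt q.2 ((π q.1).2 + q.2 • (π q.1).1) :=
    hptc.comp ((hπ.comp continuous_fst).prodMk continuous_snd)
  let S : Set ((ℕ → Fin m) × ℝ) := {q | pt q.2 ((π q.1).2 + q.2 • (π q.1).1) ∈ K}
  have hS : MeasurableSet S := hc.measurable hK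
  have h1 : (volume.prod P : Measure (ℝ × (ℕ → Fin m))) (Prod.swap ⁻¹' S) = 0 := by
    rw [Measure.measure_prod_null (measurable_swap hS)]
    have h2 : ∀ᵐ t : ℝ, P {ω | pt t ((π ω).2 + t • (π ω).1) ∈ K} = 0 := by
      rw [ae_iff]
      exact hcon
    exact h2
  have h3 : (P.prod volume : Measure ((ℕ → Fin m) × ℝ)) S = 0 := by
    rw [← Measure.prod_swap, Measure.map_apply measurable_swap hS]
    exact h1
  rw [Measure.measure_prod_null hS] at h3
  obtain ⟨ω, hω⟩ := h3.exists
  exact hpos ω hω

end Pool.Agent.V5helper15.KP
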